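import Pool.Agent.Helper89.OS.All
import Pool.Agent.Helper4.SQ.M_LUN

/-!
# The square-free theorem (MP_2b6189_al), step (1): objects of defect zero

`X : PD I p 1`, `p ≠ 3`, `p ∣ d k`: then `t k = 1`, the torus fixes `k` and `s i k = p [i = k]`.
-/

set_option autoImplicit false

namespace Pool.Agent.Helper52.SQ

open Matrix ComplexConjugate Pool.Agent.Helper94.YF Pool.Agent.Helper94.YG Pool.Agent.Helper89.OS

/-- `a` is integral if `m a` and `n a` are and `m`, `n` are coprime. -/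
theorem int_of_coprime {m n : ℕ} (h : Nat.Coprime m n) (a : ℂ) (h1 : IsIntegral ℤ ((m : ℂ) * a))
    (h2 : IsIntegral ℤ ((n : ℂ) * a)) : IsIntegral ℤ a := by
  have hb : (m : ℤ) * m.gcdA n + (n : ℤ) * m.gcdB n = 1 := by
    have := Nat.gcd_eq_gcd_ab m n
    rw [h] at this
    exact_mod_cast this.symm
  have hb' : (m : ℂ) * (m.gcdA n : ℂ) + (n : ℂ) * (m.gcdB n : ℂ) = 1 := by exact_mod_cast hb
  have h3 : a = ((m.gcdA n : ℤ) : ℂ) * ((m : ℂ) * a) + ((m.gcdB n : ℤ) : ℂ) * ((n : ℂ) * a) := by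
    linear_combination (-a) * hb'
  rw [h3]
  exact ((isIntegral_algebraMap (R := ℤ) (x := m.gcdA n)).mul h1).add
    ((isIntegral_algebraMap (R := ℤ) (x := m.gcdB n)).mul h2)

theorem pi_inj {I : Type} [Fintype I] [DecidableEq I] {p a : ℕ} (X : PD I p a) (c) :
    Function.Injective (X.pi c) := by
  intro i j hij
  have h1 := congrArg (X.pi c⁻¹) hij
  rwa [← X.pi_mul, ← X.pi_mul, inv_mul_cancel, X.pi_one, X.pi_one] at h1

/-- an algebraic integer vector of norm `1`, permuted by the automorphisms of `ℂ` through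
injections, has exactly one nonzero entry -/
theorem unit_vector {I : Type} [Fintype I] [DecidableEq I] (a : I → ℂ)
    (hint : ∀ i, IsIntegral ℤ (a i))
    (hgal : ∀ σ : ℂ ≃+* ℂ, ∃ e : I ≃ I, ∀ i, σ (a i) = a (e i))
    (h1 : ∑ i, ‖a i‖ ^ 2 = 1) : ∃ k, a k ≠ 0 ∧ ∀ i, i ≠ k → a i = 0 := by
  classical
  have hle : (Fintype.card {i // a i ≠ 0} : ℝ) ≤ ∑ c : {i // a i ≠ 0}, ‖a c.1‖ ^ 2 := by
    refine Helper4.SQ.card_le_sum_sq _ (Helper4.SQ.one_le_norm_prod (fun c : {i // a i ≠ 0} => a c.1)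
      (fun c => hint _) (fun c => c.2) ?_)
    intro σ
    obtain ⟨e, he⟩ := hgal σ
    refine ⟨Equiv.subtypeEquiv e fun i => ?_, fun c => ?_⟩
    · rw [← he i, ne_eq, ne_eq, map_eq_zero_iff σ σ.injective]
    · rw [he]
      rfl
  have hsub : ∑ c : {i // a i ≠ 0}, ‖a c.1‖ ^ 2 = ∑ i, ‖a i‖ ^ 2 := by
    rw [← Finset.sum_subtype (Finset.univ.filter fun i => a i ≠ 0)
      (p := fun i => a i ≠ 0) (fun i => by simp) (fun i => ‖a i‖ ^ 2)]
    apply Finset.sum_subset (Finset.filter_subset _ _)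
    intro i _ hi
    have : a i = 0 := by
      by_contra h
      exact hi (by simp [h])
    rw [this]
    simp
  have hcard : Fintype.card {i // a i ≠ 0} ≤ 1 := by
    have : (Fintype.card {i // a i ≠ 0} : ℝ) ≤ 1 := by linarith
    exact_mod_cast this
  have hex : ∃ k, a k ≠ 0 := by
    by_contra h
    push Not at h
    have : ∑ i, ‖a i‖ ^ 2 = 0 := Finset.sum_eq_zero fun i _ => by rw [h i]; simp
    rw [h1] at this
    norm_num at this
  obtain ⟨k, hk⟩ := hex
  refine ⟨k, hk, fun i hi => ?_⟩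
  by_contra h
  have := Fintype.card_le_one_iff.1 hcard ⟨i, h⟩ ⟨k, hk⟩
  exact hi (congrArg Subtype.val this)

/-- the torus as an equivalence -/
noncomputable def piE {I : Type} [Fintype I] [DecidableEq I] {p a : ℕ} (X : PD I p a)
    (c : (ZMod (p ^ a))ˣ) : I ≃ I :=
  Equiv.ofBijective (X.pi c) (Finite.injective_iff_bijective.1 (pi_inj X c))

/-- **defect zero** -/
theorem dz {I : Type} [Fintype I] [DecidableEq I] {p : ℕ} (X : PD I p 1) (h3 : p ≠ 3) (k : I)
    (hk : p ∣ X.d k) : X.t k = 1 ∧ (∀ c, X.pi c k = k) ∧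
      ∀ i, X.s i k = if i = k then (p : ℂ) else 0 := by
  have hp0 : (p : ℂ) ≠ 0 := by exact_mod_cast X.prime.ne_zero
  have hpR : (0 : ℝ) < p := by exact_mod_cast X.prime.pos
  obtain ⟨e, he⟩ := hk
  obtain ⟨w, hw, hcon⟩ := X.con
  -- integrality
  have hint : ∀ i, IsIntegral ℤ (X.s k i / p) := by
    intro i
    have hc : Nat.Coprime (X.m ^ 2) p :=
      Nat.Coprime.pow_left 2 ((Nat.Prime.coprime_iff_not_dvd X.prime).2 X.cop).symm
    refine int_of_coprime hc _ ?_ ?_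
    · have h1 : ((X.m ^ 2 : ℕ) : ℂ) * (X.s k i / p) = (e : ℂ) * ∑ l, w i l * X.chi k l := by
        have h2 := hcon i k
        rw [he] at h2
        push_cast at h2 ⊢
        field_simp
        linear_combination h2
      rw [h1]
      exact (isIntegral_algebraMap (R := ℤ) (x := (e : ℤ))).mul
        (IsIntegral.sum _ fun l _ => (hw i l).mul (X.chi_int k l))
    · have h1 : (p : ℂ) * (X.s k i / p) = X.s k i := by field_simp
      rw [h1]
      exact X.s_int k i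
  have hnorm : ∑ i, ‖X.s k i / p‖ ^ 2 = 1 := by
    have h1 := X.s_uni k k
    rw [if_pos rfl] at h1
    have h2 : ((∑ i, ‖X.s k i / p‖ ^ 2 : ℝ) : ℂ) = 1 := by
      push_cast
      have h4 : ∀ i, ((‖X.s k i / p‖ : ℂ)) ^ 2 = X.s k i * conj (X.s k i) / (p : ℂ) ^ 2 := by
        intro i
        rw [Complex.mul_conj, norm_div, Complex.norm_natCast, Complex.normSq_eq_norm_sq]
        push_cast
        field_simp
      simp only [h4]
      rw [← Finset.sum_div, h1]
      field_simp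
    exact_mod_cast h2
  have hgal : ∀ σ : ℂ ≃+* ℂ, ∃ e : I ≃ I, ∀ i, σ (X.s k i / p) = X.s k (e i) / p := by
    intro σ
    obtain ⟨c, hc⟩ := X.gal σ
    refine ⟨piE X c, fun i => ?_⟩
    rw [map_div₀, map_natCast, hc]
    rfl
  obtain ⟨k', hk', hz⟩ := unit_vector _ hint hgal hnorm
  have hs' : ∀ i, i ≠ k' → X.s k i = 0 := by
    intro i hi
    have := hz i hi
    rcases div_eq_zero_iff.1 this with h | h
    · exact h
    · exact absurd h hp0
  have hsk : X.s k k' ≠ 0 := fun h => hk' (by rw [h]; simp)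
  have hsym : ∀ l, l ≠ k' → X.s l k = 0 := fun l hl => by rw [X.s_symm]; exact hs' l hl
  -- `k' = k`
  have hw1 : ∀ w : (ZMod (p ^ 1))ˣ, X.t k' ^ (w : ZMod (p ^ 1)).val * X.s k k' ^ 2 =
      (p : ℂ) * (X.t k ^ (-((w⁻¹ : (ZMod (p ^ 1))ˣ) : ZMod (p ^ 1))).val *
      X.t k ^ (-((w⁻¹ : (ZMod (p ^ 1))ˣ) : ZMod (p ^ 1))).val) * X.s k (X.pi w⁻¹ k) := by
    intro w
    rw [← X.weil w k k, Finset.sum_eq_single k']
    · rw [X.s_symm k' k]
      ring
    · intro l _ hl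
      rw [hs' l hl]
      ring
    · intro h
      exact absurd (Finset.mem_univ _) h
  have ht0 : X.t k' ≠ 0 := by
    intro h
    have := X.t_pow k'
    rw [h, zero_pow (by simpa using X.prime.ne_zero)] at this
    exact zero_ne_one this
  have hnz : ∀ w : (ZMod (p ^ 1))ˣ, X.pi w k = k' := by
    intro w
    by_contra hne
    have h1 := hw1 w⁻¹
    rw [inv_inv, hs' _ hne, mul_zero] at h1
    exact (mul_ne_zero (pow_ne_zero _ ht0) (pow_ne_zero 2 hsk)) h1
  have hkk : k' = k := by rw [← hnz 1, X.pi_one]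
  subst hkk
  have hval : X.s k' k' ≠ 0 := hsk
  have hw2 : ∀ w : (ZMod (p ^ 1))ˣ, X.t k' ^ (w : ZMod (p ^ 1)).val * X.s k' k' =
      (p : ℂ) * (X.t k' ^ (-((w⁻¹ : (ZMod (p ^ 1))ˣ) : ZMod (p ^ 1))).val *
      X.t k' ^ (-((w⁻¹ : (ZMod (p ^ 1))ˣ) : ZMod (p ^ 1))).val) := by
    intro w
    have h1 := hw1 w
    rw [hnz] at h1
    have h2 : (X.t k' ^ (w : ZMod (p ^ 1)).val * X.s k' k') * X.s k' k' = ((p : ℂ) *
      (X.t k' ^ (-((w⁻¹ : (ZMod (p ^ 1))ˣ) : ZMod (p ^ 1))).val *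
      X.t k' ^ (-((w⁻¹ : (ZMod (p ^ 1))ˣ) : ZMod (p ^ 1))).val)) * X.s k' k' := by
      rw [← h1]
      ring
    exact mul_right_cancel₀ hval h2
  have : Fact (1 < p ^ 1) := ⟨by simpa using X.prime.one_lt⟩
  have : NeZero (p ^ 1) := ⟨by simpa using X.prime.ne_zero⟩
  have hv1 : (1 : ZMod (p ^ 1)).val = 1 := ZMod.val_one _
  have hv2 : X.t k' ^ (-1 : ZMod (p ^ 1)).val * X.t k' = 1 := by
    rw [← pow_succ]
    have h1 : (((-1 : ZMod (p ^ 1)).val + 1 : ℕ) : ZMod (p ^ 1)) = 0 := by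
      push_cast
      rw [ZMod.natCast_zmod_val]
      ring
    obtain ⟨r, hr⟩ := (ZMod.natCast_eq_zero_iff _ _).1 h1
    rw [hr, pow_mul, X.t_pow, one_pow]
  have e1 := hw2 1
  have e2 := hw2 (-1)
  rw [inv_one, Units.val_one, hv1, pow_one] at e1
  have e2' : X.t k' ^ (-1 : ZMod (p ^ 1)).val * X.s k' k' = (p : ℂ) * (X.t k' * X.t k') := by
    have h1 : (((-1 : (ZMod (p ^ 1))ˣ)⁻¹ : (ZMod (p ^ 1))ˣ) : ZMod (p ^ 1)) = -1 := by
      rw [inv_neg, inv_one, Units.val_neg, Units.val_one]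
    have h2 : ((-1 : (ZMod (p ^ 1))ˣ) : ZMod (p ^ 1)) = -1 := by
      rw [Units.val_neg, Units.val_one]
    rw [h1, h2, neg_neg, hv1] at e2
    rw [e2]
    ring
  set τ := X.t k' with hτ
  set υ := X.t k' ^ (-1 : ZMod (p ^ 1)).val with hυ
  -- `s = p υ ^ 3 = p τ ^ 3`
  have f1 : X.s k' k' = p * υ ^ 3 := by
    linear_combination υ * e1 - X.s k' k' * hv2
  have f2 : X.s k' k' = p * τ ^ 3 := by
    linear_combination τ * e2' - X.s k' k' * hv2
  have f3 : τ ^ 6 = 1 := by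
    have h1 : (p : ℂ) * υ ^ 3 = p * τ ^ 3 := by rw [← f1, ← f2]
    have h2 := mul_left_cancel₀ hp0 h1
    calc τ ^ 6 = τ ^ 3 * τ ^ 3 := by ring
      _ = τ ^ 3 * υ ^ 3 := by rw [h2]
      _ = (υ * τ) ^ 3 := by ring
      _ = 1 := by rw [hv2, one_pow]
  have hcop : Nat.Coprime p 6 := by
    have h2 : ¬ p ∣ 6 := by
      intro h
      rcases (Nat.Prime.dvd_mul X.prime).1 (show p ∣ 2 * 3 from h) with h | h
      · have := (Nat.prime_dvd_prime_iff_eq X.prime Nat.prime_two).1 h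
        have h5 := X.p_odd
        rw [this] at h5
        exact absurd h5 (by decide)
      · exact h3 ((Nat.prime_dvd_prime_iff_eq X.prime Nat.prime_three).1 h)
    exact (Nat.Prime.coprime_iff_not_dvd X.prime).2 h2
  have ht1 : τ = 1 := by
    have h1 : τ ^ p = 1 := by simpa using X.t_pow k'
    have h2 : orderOf τ ∣ Nat.gcd p 6 :=
      Nat.dvd_gcd (orderOf_dvd_of_pow_eq_one h1) (orderOf_dvd_of_pow_eq_one f3)
    rw [hcop] at h2
    exact orderOf_eq_one_iff.1 (Nat.dvd_one.1 h2)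
  refine ⟨ht1, hnz, fun i => ?_⟩
  split_ifs with h
  · subst h
    rw [f2, ht1]
    ring
  · rw [X.s_symm]
    exact hs' i h

/-- **defect zero**, converse: an invariant vector `e_k` has `p ∣ d k` -/
theorem dz_conv {I : Type} [Fintype I] [DecidableEq I] {p : ℕ} (X : PD I p 1) (k : I)
    (hs : ∀ i, X.s i k = if i = k then (p : ℂ) else 0) : p ∣ X.d k := by
  have h1 := X.sd k
  rw [Finset.sum_eq_single k (fun j _ hj => by
    rw [X.s_symm, hs, if_neg hj, zero_mul]) (fun h => absurd (Finset.mem_univ _) h), hs,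
    if_pos rfl] at h1
  have hp0 : (p : ℂ) ≠ 0 := by exact_mod_cast X.prime.ne_zero
  have h2 : (X.d k : ℂ) = p * X.z k := by
    apply mul_left_cancel₀ hp0
    rw [h1]
    ring
  have h3 : (X.d k : ℤ) = p * X.z k := by exact_mod_cast h2
  exact Int.natCast_dvd_natCast.1 ⟨_, h3⟩

end Pool.Agent.Helper52.SQ
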