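import Pool.Agent.Helper79.AL.St3
import Pool.Agent.Helper52.SQ.M_DZ

/-!
# Tools for the case `g A = p - 1` (MP_2b6189_al)
-/

set_option autoImplicit false

namespace Pool.Agent.Helper52.SQ

open Matrix ComplexConjugate Pool.Agent.Helper94.YG
open Pool.Agent.Helper94.YF hiding StORB
open Pool.Agent.Helper89.OS Pool.Agent.Helper89.OC Pool.Agent.Helper79.AL

theorem isInt_int (k : ℤ) : IsIntegral ℤ (k : ℂ) := isIntegral_algebraMap (R := ℤ) (x := k)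

theorem isInt_nat (k : ℕ) : IsIntegral ℤ (k : ℂ) := by
  simpa using isInt_int (k : ℤ)

/-- an algebraic integer, all conjugates of modulus `≤ 1`, itself of modulus `< 1`, is zero -/
theorem kro' (α : ℂ) (hα : IsIntegral ℤ α) (hle : ∀ σ : ℂ ≃+* ℂ, ‖σ α‖ ≤ 1) (hlt : ‖α‖ < 1) :
    α = 0 := by
  obtain ⟨f, hf, hroot⟩ := hα
  have hf0 : f.map (algebraMap ℤ ℂ) ≠ 0 := (hf.map (algebraMap ℤ ℂ)).ne_zero
  have hσroot : ∀ σ : ℂ ≃+* ℂ, σ α ∈ (f.map (algebraMap ℤ ℂ)).roots := by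
    intro σ
    rw [Polynomial.mem_roots hf0, Polynomial.IsRoot.def, Polynomial.eval_map]
    have h1 := congrArg (σ : ℂ →+* ℂ) hroot
    rw [Polynomial.hom_eval₂, map_zero] at h1
    have h2 : (σ : ℂ →+* ℂ).comp (algebraMap ℤ ℂ) = algebraMap ℤ ℂ := RingHom.ext_int _ _
    rw [h2] at h1
    simpa using h1
  have hfin : (Set.range fun σ : ℂ ≃+* ℂ => σ α).Finite := by
    classical
    refine ((f.map (algebraMap ℤ ℂ)).roots.toFinset.finite_toSet).subset ?_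
    rintro _ ⟨σ, rfl⟩
    simpa using hσroot σ
  classical
  set S : Finset ℂ := hfin.toFinset with hS
  have hmem : ∀ z : ℂ, z ∈ S ↔ ∃ σ : ℂ ≃+* ℂ, σ α = z := by
    intro z
    simp [hS]
  set P : ℂ := ∏ β ∈ S, β with hP
  have hPint : IsIntegral ℤ P := by
    refine IsIntegral.prod _ ?_
    intro β hβ
    obtain ⟨σ, rfl⟩ := (hmem β).1 hβ
    exact ⟨f, hf, by
      have h1 := congrArg (σ : ℂ →+* ℂ) hroot
      rw [Polynomial.hom_eval₂, map_zero] at h1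
      have h2 : (σ : ℂ →+* ℂ).comp (algebraMap ℤ ℂ) = algebraMap ℤ ℂ := RingHom.ext_int _ _
      rw [h2] at h1
      simpa using h1⟩
  have hPfix : ∀ τ : ℂ ≃+* ℂ, τ P = P := by
    intro τ
    rw [hP, map_prod]
    refine Finset.prod_nbij (fun z => τ z) ?_ ?_ ?_ ?_
    · intro z hz
      obtain ⟨σ, rfl⟩ := (hmem z).1 hz
      exact (hmem _).2 ⟨σ.trans τ, rfl⟩
    · exact fun x _ y _ h => τ.injective h
    · intro z hz
      obtain ⟨σ, rfl⟩ := (hmem z).1 (by simpa using hz)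
      exact ⟨τ.symm (σ α), by
        simpa using (hmem _).2 ⟨σ.trans τ.symm, rfl⟩, by simp⟩
    · intro z _
      rfl
  obtain ⟨m, hm⟩ := Pool.Agent.Helper94.YF.hRAT'.1 P hPint hPfix
  have hαS : α ∈ S := (hmem α).2 ⟨RingEquiv.refl ℂ, rfl⟩
  have hPlt : ‖P‖ < 1 := by
    rw [hP, norm_prod]
    have h1 : ∀ β ∈ S, ‖β‖ ≤ 1 := by
      intro β hβ
      obtain ⟨σ, rfl⟩ := (hmem β).1 hβ
      exact hle σ
    rw [← Finset.mul_prod_erase S _ hαS]
    have h2 : ∏ x ∈ S.erase α, ‖x‖ ≤ 1 :=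
      Finset.prod_le_one (fun x _ => norm_nonneg x)
        (fun x hx => h1 x (Finset.mem_of_mem_erase hx))
    have h3 : 0 ≤ ∏ x ∈ S.erase α, ‖x‖ := Finset.prod_nonneg fun x _ => norm_nonneg x
    nlinarith [norm_nonneg α]
  have hm0 : m = 0 := by
    rw [← hm] at hPlt
    have h1 : |(m : ℝ)| < 1 := by simpa using hPlt
    have h2 : |m| < 1 := by exact_mod_cast h1
    exact Int.abs_lt_one_iff.1 h2
  have hP0 : P = 0 := by rw [← hm, hm0]; simp
  obtain ⟨β, hβ, hβ0⟩ := Finset.prod_eq_zero_iff.1 (hP ▸ hP0)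
  obtain ⟨σ, hσ⟩ := (hmem β).1 hβ
  rw [hβ0] at hσ
  exact (map_eq_zero_iff σ σ.injective).1 hσ

/-- equality in the triangle inequality -/
theorem tri {I : Type} (O : Finset I) (χ : I → ℂ) (A : ℝ)
    (hχ : ∀ k ∈ O, ‖χ k‖ ≤ A) (h : 1 + (O.card : ℝ) * A ≤ ‖1 + ∑ k ∈ O, χ k‖) :
    ∀ k ∈ O, χ k = A := by
  set w : ℂ := ∑ k ∈ O, χ k with hw
  have hwn : ‖w‖ ≤ (O.card : ℝ) * A := by
    calc ‖w‖ ≤ ∑ k ∈ O, ‖χ k‖ := norm_sum_le _ _
      _ ≤ ∑ _k ∈ O, A := Finset.sum_le_sum hχ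
      _ = (O.card : ℝ) * A := by rw [Finset.sum_const, nsmul_eq_mul]
  have hB0 : 0 ≤ (O.card : ℝ) * A := le_trans (norm_nonneg w) hwn
  have hsq : ‖1 + w‖ ^ 2 = 1 + 2 * w.re + ‖w‖ ^ 2 := by
    rw [← Complex.normSq_eq_norm_sq, ← Complex.normSq_eq_norm_sq, Complex.normSq_apply,
      Complex.normSq_apply]
    simp
    ring
  have hre : (O.card : ℝ) * A ≤ w.re := by
    have h1 : (1 + (O.card : ℝ) * A) ^ 2 ≤ ‖1 + w‖ ^ 2 := by
      apply pow_le_pow_left₀ (by linarith) h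
    have h2 : ‖w‖ ^ 2 ≤ ((O.card : ℝ) * A) ^ 2 := pow_le_pow_left₀ (norm_nonneg w) hwn 2
    rw [hsq] at h1
    nlinarith
  have hrew : w.re = ∑ k ∈ O, (χ k).re := by rw [hw, Complex.re_sum]
  have hle : ∀ k ∈ O, (χ k).re ≤ A := fun k hk =>
    le_trans (Complex.re_le_norm _) (hχ k hk)
  have heq : ∀ k ∈ O, (χ k).re = A := by
    by_contra hcon
    push Not at hcon
    obtain ⟨k, hk, hne⟩ := hcon
    have : ∑ k ∈ O, (χ k).re < ∑ _k ∈ O, A :=
      Finset.sum_lt_sum hle ⟨k, hk, lt_of_le_of_ne (hle k hk) hne⟩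
    rw [Finset.sum_const, nsmul_eq_mul] at this
    linarith
  intro k hk
  have h1 := heq k hk
  have h2 := hχ k hk
  have h3 : (χ k).im = 0 := by
    have h4 : ‖χ k‖ ^ 2 = (χ k).re ^ 2 + (χ k).im ^ 2 := by
      rw [← Complex.normSq_eq_norm_sq, Complex.normSq_apply]
      ring
    have h5 : ‖χ k‖ ^ 2 ≤ A ^ 2 := pow_le_pow_left₀ (norm_nonneg _) h2 2
    rw [h4, h1] at h5
    have h6 : (χ k).im ^ 2 ≤ 0 := by linarith
    exact pow_eq_zero_iff (two_ne_zero) |>.1 (le_antisymm h6 (sq_nonneg _))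
  apply Complex.ext
  · simpa using h1
  · simpa using h3

/-- orthogonality -/
theorem orth {I : Type} [Fintype I] [DecidableEq I] (Z : CentreData I) (k : I) :
    ∑ j, (Z.d j : ℂ) * Sf Z j k = if k = Z.o then (Z.n : ℂ) ^ 2 else 0 := by
  have hn : (Z.n : ℂ) ≠ 0 := by exact_mod_cast Z.n_pos.ne'
  have h1 := congrFun (congrFun (Z.unitary Sm) Z.o) k
  rw [Matrix.mul_apply] at h1
  simp only [Matrix.conjTranspose_apply, Matrix.one_apply] at h1
  have h2 : ∀ j, star (Z.rho Sm j Z.o) = (Z.d j : ℂ) / Z.n := by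
    intro j
    rw [Z.s_symm j Z.o, Z.s_o j]
    simp
  simp only [h2] at h1
  unfold Sf
  have h3 : ∑ j, (Z.d j : ℂ) * ((Z.n : ℂ) * Z.rho Sm j k) =
      (Z.n : ℂ) ^ 2 * ∑ j, (Z.d j : ℂ) / Z.n * Z.rho Sm j k := by
    rw [Finset.mul_sum]
    apply Finset.sum_congr rfl
    intro j _
    field_simp
  rw [h3, h1]
  by_cases h : k = Z.o
  · rw [if_pos h, if_pos h.symm]
    ring
  · rw [if_neg h, if_neg (fun h' => h h'.symm)]
    ring

/-- `∑ z ^ 2 = m ^ 2` -/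
theorem sum_z_sq {I : Type} [Fintype I] [DecidableEq I] (Z : CentreData I) {p : ℕ}
    (b : ZMod Z.L) (X : PD I p 1) (hL : Lk Z b X) : ∑ i, X.z i ^ 2 = (X.m : ℤ) ^ 2 := by
  have hm : (X.m : ℂ) ≠ 0 := by
    have h1 := Z.n_pos
    have h2 := hL.n_eq
    have : X.m ≠ 0 := by
      intro h0
      rw [h0, mul_zero] at h2
      omega
    exact_mod_cast this
  have h1 := congrFun (congrFun (Z.unitary (s2 (1 - b))) Z.o) Z.o
  rw [Matrix.mul_apply] at h1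
  simp only [Matrix.conjTranspose_apply, Matrix.one_apply, if_true] at h1
  have h2 : ∀ i, Z.rho (s2 (1 - b)) i Z.o = (X.z i : ℂ) / X.m := by
    intro i
    rw [hL.z i]
    field_simp
  simp only [h2] at h1
  have h3 : ((∑ i, X.z i ^ 2 : ℤ) : ℂ) = (((X.m : ℤ) ^ 2 : ℤ) : ℂ) := by
    push_cast
    have h4 : ∑ i, (X.z i : ℂ) ^ 2 = (X.m : ℂ) ^ 2 *
        ∑ i, star ((X.z i : ℂ) / X.m) * ((X.z i : ℂ) / X.m) := by
      rw [Finset.mul_sum]
      apply Finset.sum_congr rfl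
      intro i _
      have : star ((X.z i : ℂ) / X.m) = (X.z i : ℂ) / X.m := by simp
      rw [this]
      field_simp
    rw [h4, h1]
    ring
  exact_mod_cast h3

end Pool.Agent.Helper52.SQ
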