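import Mathlib

/-!
Pure lemma for MP_2b6189_al (dimension `R m`, all primes of the square-free number `m` larger than
`2 R`): the averaging argument of `Pool/Agent/Helper4/SQ/M_AVG.lean` with a sharper hypothesis.
-/

set_option autoImplicit false

namespace Pool.Agent.Helper52.SQ

open Finset

/-- Weighted averaging: a sign matrix with `u p p = 1`, `u p q + u q p ≥ 0`, `|u p q| ≤ 1` and
weights `w > c > 0`, on a set with at least two elements has two different rows whose
weighted sums add up to more than `2 c`. -/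
theorem avg_real2 (Q : Finset ℕ) (w : ℕ → ℝ) (u : ℕ → ℕ → ℝ) (c : ℝ) (hc : 0 < c)
    (hw : ∀ p ∈ Q, c < w p) (hu : ∀ p ∈ Q, ∀ q ∈ Q, u p q ≤ 1)
    (hself : ∀ p ∈ Q, u p p = 1) (hsym : ∀ p ∈ Q, ∀ q ∈ Q, p ≠ q → 0 ≤ u p q + u q p)
    (h2 : 2 ≤ Q.card) :
    ∃ p ∈ Q, ∃ r ∈ Q, p ≠ r ∧
      2 * c < (∑ t ∈ Q, w t * u p t) + ∑ t ∈ Q, w t * u r t := by
  classical
  by_contra hcon
  push Not at hcon
  set U : ℕ → ℝ := fun p => ∑ t ∈ Q, w t * u p t with hU
  have hwpos : ∀ p ∈ Q, 0 < w p := fun p hp => by linarith [hw p hp]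
  have hne : Q.Nonempty := Finset.card_pos.mp (by omega)
  -- lower bound
  have hlow : ∑ p ∈ Q, w p * w p ≤ ∑ p ∈ Q, w p * U p := by
    have e1 : ∑ p ∈ Q, w p * U p = ∑ p ∈ Q, ∑ t ∈ Q, w p * w t * u p t := by
      refine Finset.sum_congr rfl fun p _ => ?_
      rw [hU, Finset.mul_sum]
      exact Finset.sum_congr rfl fun t _ => by ring
    have e2 : ∑ p ∈ Q, w p * U p = ∑ p ∈ Q, ∑ t ∈ Q, w p * w t * u t p := by
      rw [e1, Finset.sum_comm]
      exact Finset.sum_congr rfl fun p _ => Finset.sum_congr rfl fun t _ => by ring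
    have e3 : 2 * ∑ p ∈ Q, w p * U p = ∑ p ∈ Q, ∑ t ∈ Q, w p * w t * (u p t + u t p) := by
      have : 2 * ∑ p ∈ Q, w p * U p = ∑ p ∈ Q, w p * U p + ∑ p ∈ Q, w p * U p := by ring
      rw [this]
      nth_rewrite 1 [e1]
      rw [e2, ← Finset.sum_add_distrib]
      refine Finset.sum_congr rfl fun p _ => ?_
      rw [← Finset.sum_add_distrib]
      exact Finset.sum_congr rfl fun t _ => by ring
    have e4 : ∀ p ∈ Q, 2 * (w p * w p) ≤ ∑ t ∈ Q, w p * w t * (u p t + u t p) := by
      intro p hp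
      have hnn : ∀ t ∈ Q, 0 ≤ w p * w t * (u p t + u t p) := by
        intro t ht
        have h1 : 0 < w p * w t := mul_pos (hwpos p hp) (hwpos t ht)
        by_cases h : p = t
        · subst h
          rw [hself p hp]
          nlinarith
        · exact mul_nonneg h1.le (hsym p hp t ht h)
      have hs := Finset.single_le_sum hnn hp
      rw [hself p hp] at hs
      linarith
    have e5 : ∑ p ∈ Q, 2 * (w p * w p) ≤ ∑ p ∈ Q, ∑ t ∈ Q, w p * w t * (u p t + u t p) :=
      Finset.sum_le_sum e4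
    rw [← e3, ← Finset.mul_sum] at e5
    linarith
  -- comparison of sums
  have hsq : c * ∑ p ∈ Q, w p < ∑ p ∈ Q, w p * w p := by
    rw [Finset.mul_sum]
    refine Finset.sum_lt_sum_of_nonempty hne fun p hp => ?_
    have h1 := hw p hp
    have h2 := hwpos p hp
    nlinarith
  obtain ⟨p0, hp0, hmax⟩ := Finset.exists_max_image Q U hne
  have hoth : ∀ r ∈ Q, r ≠ p0 → U p0 + U r ≤ 2 * c := fun r hr hne' =>
    hcon p0 hp0 r hr (Ne.symm hne')
  by_cases hc0 : U p0 ≤ c
  · have : ∑ p ∈ Q, w p * U p ≤ c * ∑ p ∈ Q, w p := by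
      rw [Finset.mul_sum]
      refine Finset.sum_le_sum fun p hp => ?_
      have h1 := hmax p hp
      have h2 := hwpos p hp
      nlinarith
    linarith
  · push Not at hc0
    set R : ℝ := ∑ r ∈ Q.erase p0, w r with hR
    have hsplitw : ∑ p ∈ Q, w p = w p0 + R := by
      rw [hR, ← Finset.add_sum_erase Q w hp0]
    have hsplitU : ∑ p ∈ Q, w p * U p = w p0 * U p0 + ∑ r ∈ Q.erase p0, w r * U r := by
      rw [← Finset.add_sum_erase Q (fun p => w p * U p) hp0]
    have hsplitS : ∑ p ∈ Q, w p * w p = w p0 * w p0 + ∑ r ∈ Q.erase p0, w r * w r := by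
      rw [← Finset.add_sum_erase Q (fun p => w p * w p) hp0]
    have hrest : ∑ r ∈ Q.erase p0, w r * U r ≤ R * (2 * c - U p0) := by
      rw [hR, Finset.sum_mul]
      refine Finset.sum_le_sum fun r hr => ?_
      have hr' := Finset.mem_erase.mp hr
      have h1 := hoth r hr'.2 hr'.1
      have h2 := hwpos r hr'.2
      nlinarith
    have hsqrest : 0 ≤ ∑ r ∈ Q.erase p0, w r * w r :=
      Finset.sum_nonneg fun r _ => mul_self_nonneg _
    have hcard : (Q.erase p0).Nonempty := by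
      rw [← Finset.card_pos, Finset.card_erase_of_mem hp0]
      omega
    obtain ⟨r1, hr1⟩ := hcard
    have hr1' := Finset.mem_erase.mp hr1
    have hsqpos : 0 < ∑ r ∈ Q.erase p0, w r * w r := by
      have hnn : ∀ r ∈ Q.erase p0, 0 ≤ w r * w r := fun r _ => mul_self_nonneg _
      have h1 := Finset.single_le_sum hnn hr1
      have h2 := hwpos r1 hr1'.2
      nlinarith
    have hRge : c < R := by
      have hnn : ∀ r ∈ Q.erase p0, 0 ≤ w r := fun r hr =>
        (hwpos r (Finset.mem_erase.mp hr).2).le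
      have h1 := Finset.single_le_sum hnn hr1
      linarith [hw r1 hr1'.2]
    have hsqR : c * R ≤ ∑ r ∈ Q.erase p0, w r * w r := by
      rw [hR, Finset.mul_sum]
      refine Finset.sum_le_sum fun r hr => ?_
      have hr' := Finset.mem_erase.mp hr
      have h1 := hw r hr'.2
      have h2 := hwpos r hr'.2
      nlinarith
    by_cases hwR : w p0 ≤ R
    · have h1 : U p0 * (w p0 - R) ≤ c * (w p0 - R) := by nlinarith
      nlinarith
    · push Not at hwR
      have hU0 : U p0 ≤ w p0 + R := by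
        rw [← hsplitw]
        refine Finset.sum_le_sum fun t ht => ?_
        have h1 := hu p0 hp0 t ht
        have h2 := hwpos t ht
        nlinarith
      have h1 : U p0 * (w p0 - R) ≤ (w p0 + R) * (w p0 - R) :=
        mul_le_mul_of_nonneg_right hU0 (by linarith)
      nlinarith

/-- `P` = the primes of `m`, `G p`, `D p` = the primes of type G, D for `p`. -/
theorem avg_prod2 (P Q : Finset ℕ) (R : ℕ) (hR : 0 < R) (hQP : Q ⊆ P) (h7 : ∀ p ∈ P, 2 * R < p)
    (G D : ℕ → Finset ℕ) (hDP : ∀ p ∈ Q, D p ⊆ P) (hGP : ∀ p ∈ Q, G p ⊆ P)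
    (hGD : ∀ p ∈ Q, ∀ t ∈ G p, t ∉ D p)
    (hself : ∀ p ∈ Q, p ∈ G p)
    (hout : ∀ p ∈ Q, ∀ t ∈ P, t ∉ Q → t ∉ D p)
    (htour : ∀ p ∈ Q, ∀ q ∈ Q, p ≠ q → q ∈ D p → p ∈ G q) (h2 : 2 ≤ Q.card) :
    ∃ p ∈ Q, ∃ r ∈ Q, p ≠ r ∧
      2 * R * ∏ t ∈ D p ∩ D r, t < ∏ t ∈ (G p ∪ G r) \ (D p ∪ D r), t := by
  classical
  set w : ℕ → ℝ := fun t => Real.log t with hwdef
  set u : ℕ → ℕ → ℝ := fun p t => if t ∈ G p then 1 else if t ∈ D p then -1 else 0 with hudef
  have hR0 : (0 : ℝ) < 2 * R := by positivity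
  have hPpos : ∀ t ∈ P, (0 : ℝ) < t := fun t ht => by
    have := h7 t ht
    exact_mod_cast (by omega : 0 < t)
  have hc1 : 0 < Real.log (2 * R) := by
    apply Real.log_pos
    have : (1 : ℝ) ≤ R := by exact_mod_cast hR
    linarith
  have hwge : ∀ t ∈ P, Real.log (2 * R) < w t := by
    intro t ht
    apply Real.log_lt_log hR0
    exact_mod_cast h7 t ht
  have hwnn : ∀ t ∈ P, 0 ≤ w t := fun t ht => by linarith [hwge t ht]
  obtain ⟨p, hp, r, hr, hpr, hlt⟩ := avg_real2 Q w u (Real.log (2 * R)) hc1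
    (fun p hp => hwge p (hQP hp))
    (by
      intro p _ q _
      simp only [hudef]
      split_ifs <;> norm_num)
    (by
      intro p hp
      simp only [hudef]
      rw [if_pos (hself p hp)])
    (by
      intro p hp q hq hpq
      simp only [hudef]
      by_cases h1 : q ∈ G p
      · rw [if_pos h1]
        split_ifs <;> norm_num
      · rw [if_neg h1]
        by_cases h2 : q ∈ D p
        · rw [if_pos h2, if_pos (htour p hp q hq hpq h2)]
          norm_num
        · rw [if_neg h2]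
          by_cases h3 : p ∈ G q
          · rw [if_pos h3]; norm_num
          · rw [if_neg h3]
            by_cases h4 : p ∈ D q
            · exact absurd (htour q hq p hp (Ne.symm hpq) h4) h1
            · rw [if_neg h4]; norm_num)
    h2
  refine ⟨p, hp, r, hr, hpr, ?_⟩
  -- extend the sums to P
  have hext : ∀ s ∈ Q, ∑ t ∈ Q, w t * u s t ≤ ∑ t ∈ P, w t * u s t := by
    intro s hs
    refine Finset.sum_le_sum_of_subset_of_nonneg hQP fun t ht htQ => ?_
    have h2 := hout s hs t ht htQ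
    simp only [hudef]
    have h3 := hwnn t ht
    split_ifs
    · linarith
    · linarith
  have hlt' : 2 * Real.log (2 * R) < (∑ t ∈ P, w t * u p t) + ∑ t ∈ P, w t * u r t := by
    linarith [hext p hp, hext r hr]
  rw [← Finset.sum_add_distrib] at hlt'
  set F : Finset ℕ := (G p ∪ G r) \ (D p ∪ D r) with hF
  set E : Finset ℕ := D p ∩ D r with hE
  have hFP : F ⊆ P := fun t ht => by
    have h1 := (Finset.mem_sdiff.1 ht).1
    rcases Finset.mem_union.1 h1 with h | h
    · exact hGP p hp h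
    · exact hGP r hr h
  have hEP : E ⊆ P := fun t ht => hDP p hp (Finset.mem_inter.1 ht).1
  -- pointwise comparison
  have hpt : ∀ t ∈ P, (w t * u p t + w t * u r t) / 2 ≤
      (if t ∈ F then w t else 0) - (if t ∈ E then w t else 0) := by
    intro t ht
    have hw0 := hwnn t ht
    have hFt : t ∈ F ↔ ((t ∈ G p ∨ t ∈ G r) ∧ ¬ (t ∈ D p ∨ t ∈ D r)) := by
      simp [hF]
    have hEt : t ∈ E ↔ (t ∈ D p ∧ t ∈ D r) := by
      simp [hE]
    simp only [hudef, hFt, hEt]
    have hp1 := hGD p hp t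
    have hr1 := hGD r hr t
    by_cases a : t ∈ G p <;> by_cases b : t ∈ D p <;> by_cases c : t ∈ G r <;>
      by_cases d : t ∈ D r <;> simp [a, b, c, d] <;>
      first
        | exact absurd b (hp1 a)
        | exact absurd d (hr1 c)
        | linarith
  have hsum := Finset.sum_le_sum hpt
  rw [← Finset.sum_div] at hsum
  simp only [Finset.sum_sub_distrib] at hsum
  have hind : ∀ E : Finset ℕ, E ⊆ P → ∑ t ∈ P, (if t ∈ E then w t else 0) = ∑ t ∈ E, w t := by
    intro E hE
    rw [← Finset.sum_filter]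
    congr 1
    ext t
    simp only [Finset.mem_filter]
    exact ⟨fun h => h.2, fun h => ⟨hE h, h⟩⟩
  rw [hind F hFP, hind E hEP] at hsum
  have hkey : Real.log (2 * R) + ∑ t ∈ E, w t < ∑ t ∈ F, w t := by
    linarith
  have hlogprod : ∀ E : Finset ℕ, E ⊆ P → Real.log ((∏ t ∈ E, t : ℕ) : ℝ) = ∑ t ∈ E, w t := by
    intro E hE
    rw [Nat.cast_prod, Real.log_prod]
    intro t ht
    exact (hPpos t (hE ht)).ne'
  have hposprod : ∀ E : Finset ℕ, E ⊆ P → (0 : ℝ) < ((∏ t ∈ E, t : ℕ) : ℝ) := by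
    intro E hE
    rw [Nat.cast_prod]
    exact Finset.prod_pos fun t ht => hPpos t (hE ht)
  have hF0 := hposprod F hFP
  have hE0 := hposprod E hEP
  have hlt2 : Real.log ((2 * R : ℝ) * ((∏ t ∈ E, t : ℕ) : ℝ)) <
      Real.log ((∏ t ∈ F, t : ℕ) : ℝ) := by
    rw [Real.log_mul hR0.ne' hE0.ne', hlogprod E hEP, hlogprod F hFP]
    exact hkey
  have hfin := (Real.log_lt_log_iff (by positivity) hF0).mp hlt2
  exact_mod_cast hfin

end Pool.Agent.Helper52.SQ
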