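import Pool.Agent.Helper89.OC.Defs

/-!
# The dimension `A` of the exceptional objects (MP_2b6189_al)

`g A = p - 1`, or `2 A ≥ p + 1`.
-/

set_option autoImplicit false

namespace Pool.Agent.Helper52.SQ

open Matrix ComplexConjugate Pool.Agent.Helper94.YG
open Pool.Agent.Helper94.YF hiding StORB
open Pool.Agent.Helper89.OS Pool.Agent.Helper89.OC

/-- arithmetic -/
theorem arith_A (p g N A z e : ℤ) (hg : 2 ≤ g) (hN : 0 < N) (hA : 0 < A) (hp : p - 1 = N * g)
    (he : e = 1 ∨ e = -1) (h : g * A = e * (p * z - 1)) : g * A = p - 1 ∨ p + 1 ≤ 2 * A := by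
  have hg0 : 0 < g := by linarith
  have hp1 : p = N * g + 1 := by linarith
  have hNg : 0 < N * g := mul_pos hN hg0
  have hgA : 0 < g * A := mul_pos hg0 hA
  rcases he with rfl | rfl
  · -- `z = 1 + g s`
    have h1 : z - 1 = g * (A - N * z) := by
      rw [hp1] at h
      linear_combination (-1) * h
    set s := A - N * z with hs
    have hz : 0 < z := by
      by_contra hz
      push Not at hz
      have : p * z ≤ 0 := mul_nonpos_of_nonneg_of_nonpos (by linarith) hz
      linarith
    have hs0 : 0 ≤ s := by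
      by_contra hneg
      push Not at hneg
      have : g * s ≤ g * (-1) := mul_le_mul_of_nonneg_left (by linarith) hg0.le
      linarith
    rcases eq_or_lt_of_le hs0 with h0 | h0
    · left
      rw [← h0, mul_zero] at h1
      rw [h]
      have : z = 1 := by linarith
      rw [this]
      ring
    · right
      have hz2 : 1 + g ≤ z := by
        have : g * 1 ≤ g * s := mul_le_mul_of_nonneg_left (by linarith) hg0.le
        linarith
      have hpz : p * (1 + g) ≤ p * z := mul_le_mul_of_nonneg_left hz2 (by linarith)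
      -- `g A ≥ p (1 + g) - 1 ≥ g p`
      have h2 : g * p ≤ g * A := by
        rw [h]
        have : 1 ≤ p := by linarith
        linarith
      have h3 : p ≤ A := le_of_mul_le_mul_left h2 hg0
      linarith
  · right
    have h1 : z - 1 = -(g * (A + N * z)) := by
      rw [hp1] at h
      linear_combination h
    set s := A + N * z with hs
    have hz : z ≤ 0 := by
      by_contra hz
      push Not at hz
      have : p * 1 ≤ p * z := mul_le_mul_of_nonneg_left (by linarith) (by linarith)
      linarith
    have hs1 : 1 ≤ s := by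
      by_contra hneg
      push Not at hneg
      have : g * s ≤ g * 0 := mul_le_mul_of_nonneg_left (by linarith) hg0.le
      linarith
    have hz2 : z ≤ 1 - g := by
      have : g * 1 ≤ g * s := mul_le_mul_of_nonneg_left hs1 hg0.le
      linarith
    have hpz : p * z ≤ p * (1 - g) := mul_le_mul_of_nonneg_left hz2 (by linarith)
    -- `g A = 1 - p z ≥ 1 - p (1 - g) = g (p - N)`
    have h2 : g * (p - N) ≤ g * A := by
      have h4 : g * (p - N) = 1 - p * (1 - g) := by
        rw [hp1]
        ring
      rw [h4, h]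
      linarith
    have h3 : p - N ≤ A := le_of_mul_le_mul_left h2 hg0
    have h5 : 2 * N ≤ N * g := by nlinarith
    linarith

theorem eq2 {I : Type} [Fintype I] [DecidableEq I] {p : ℕ} (X : PD I p 1) (Q : ℂ → Prop)
    (hB : Blk X Q) (N A : ℕ) (e : ℤ) (he : e ^ 2 = 1) (hpN : (p : ℤ) - 1 = N * gX X)
    (hyd : ∀ j, X.y j ≠ 0 → X.t j ≠ 1 → X.y j = e ∧ X.d j = A) :
    gX X * A = (p : ℤ) - 1 ∨ (p : ℤ) + 1 ≤ 2 * A := by
  have hM := Helper39.OS.hMZZ I p X
  obtain ⟨-, -, ⟨j, hj1, hj2⟩, -, hg2, -, -⟩ := hM
  have hD := Helper79.OS.hDRE Helper47.OS.hSTL Helper8.OS.hHEC Helper39.OS.hMZZ I p X Q hB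
  have h1 := hD.2.1 j hj1 hj2
  obtain ⟨hy, hd⟩ := hyd j hj1 hj2
  rw [hy, hd] at h1
  have he' : e = 1 ∨ e = -1 := by
    have h4 : (e - 1) * (e + 1) = 0 := by linear_combination he
    rcases mul_eq_zero.1 h4 with h5 | h5
    · exact Or.inl (by linarith)
    · exact Or.inr (by linarith)
  have hA : 0 < (A : ℤ) := by
    rw [← hd]
    exact_mod_cast X.d_pos j
  have hN : 0 < (N : ℤ) := by
    rcases Nat.eq_zero_or_pos N with h0 | h0
    · rw [h0] at hpN
      have := X.prime.one_lt
      push_cast at hpN
      have h3 : (1 : ℤ) < p := by exact_mod_cast this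
      rw [zero_mul] at hpN
      linarith
    · exact_mod_cast h0
  exact arith_A p (gX X) N A (X.z X.o) e hg2 hN hA hpN he' (by
    unfold gX
    rw [h1]
    ring)

end Pool.Agent.Helper52.SQ
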