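import Pool.Agent.Helper79.AL.Defs
import Pool.Agent.Helper52.SQ.M_DZ

/-!
# Pair lemma with the greatest common divisor (MP_2b6189_al)

`Sf i l - d i * d l` is divisible by `lcm (d i) (d l)` and by the primes of `T`, which do not divide `d i`, `d l`.
If `2 gcd (d i) (d l) < ∏ T` then it is `0`.
-/

set_option autoImplicit false

namespace Pool.Agent.Helper52.SQ

open Matrix ComplexConjugate Pool.Agent.Helper94.YG
open Pool.Agent.Helper94.YF hiding StORB
open Pool.Agent.Helper89.OS Pool.Agent.Helper89.OC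

theorem int_div_prod (T : Finset ℕ) (hT : ∀ t ∈ T, t.Prime) (γ : ℂ) (h0 : IsIntegral ℤ γ)
    (h : ∀ t ∈ T, IsIntegral ℤ (γ / t)) : IsIntegral ℤ (γ / ((∏ t ∈ T, t : ℕ) : ℂ)) := by
  classical
  induction T using Finset.induction_on with
  | empty => simpa using h0
  | insert a s ha ih =>
    have h1 := ih (fun t ht => hT t (Finset.mem_insert_of_mem ht))
      (fun t ht => h t (Finset.mem_insert_of_mem ht))
    rw [Finset.prod_insert ha]
    have hap := hT a (Finset.mem_insert_self a s)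
    have ha0 : (a : ℂ) ≠ 0 := by exact_mod_cast hap.ne_zero
    have hs0 : ((∏ t ∈ s, t : ℕ) : ℂ) ≠ 0 := by
      rw [Nat.cast_ne_zero]
      exact Finset.prod_ne_zero_iff.2 fun t ht =>
        (hT t (Finset.mem_insert_of_mem ht)).ne_zero
    have hc : Nat.Coprime a (∏ t ∈ s, t) := by
      apply Nat.Coprime.prod_right
      intro t ht
      exact (Nat.coprime_primes hap (hT t (Finset.mem_insert_of_mem ht))).2
        (fun h => ha (h ▸ ht))
    refine int_of_coprime hc _ ?_ ?_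
    · have : (a : ℂ) * (γ / ((a * ∏ t ∈ s, t : ℕ) : ℂ)) = γ / ((∏ t ∈ s, t : ℕ) : ℂ) := by
        push_cast
        push_cast at hs0
        field_simp
      rw [this]
      exact h1
    · have : ((∏ t ∈ s, t : ℕ) : ℂ) * (γ / ((a * ∏ t ∈ s, t : ℕ) : ℂ)) = γ / a := by
        push_cast
        push_cast at hs0
        field_simp
      rw [this]
      exact h a (Finset.mem_insert_self a s)

theorem pr2 (hKRO : StKRO) {I : Type} [Fintype I] [DecidableEq I] (Z : CentreData I) (hG : GLA Z)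
    (i l : I) (T : Finset ℕ) (hT : ∀ t ∈ T, t.Prime)
    (hd : ∀ t ∈ T, ¬ t ∣ Z.d i ∧ ¬ t ∣ Z.d l)
    (hβ : ∀ t ∈ T, ∃ β : ℂ, IsIntegral ℤ β ∧ Sf Z i l - (Z.d i : ℂ) * Z.d l = (t : ℂ) * β)
    (h : 2 * Nat.gcd (Z.d i) (Z.d l) < ∏ t ∈ T, t) : Sf Z i l = (Z.d i : ℂ) * Z.d l := by
  classical
  set γ : ℂ := Sf Z i l - (Z.d i : ℂ) * Z.d l with hγ
  have hdi : (Z.d i : ℂ) ≠ 0 := by exact_mod_cast (Z.d_pos i).ne'
  have hdl : (Z.d l : ℂ) ≠ 0 := by exact_mod_cast (Z.d_pos l).ne'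
  have hnat : ∀ k : ℕ, IsIntegral ℤ (k : ℂ) := fun k => by
    simpa using isIntegral_algebraMap (R := ℤ) (A := ℂ) (x := (k : ℤ))
  have hi : IsIntegral ℤ (γ / Z.d i) := by
    have : γ / Z.d i = Cchi Z i l - Z.d l := by
      rw [hγ, hG.Sf_chi i l]
      field_simp
    rw [this]
    exact (hG.chi_int i l).sub (hnat _)
  have hl : IsIntegral ℤ (γ / Z.d l) := by
    have : γ / Z.d l = Cchi Z l i - Z.d i := by
      rw [hγ, hG.Sf_symm i l, hG.Sf_chi l i]
      field_simp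
    rw [this]
    exact (hG.chi_int l i).sub (hnat _)
  set K : ℕ := Nat.lcm (Z.d i) (Z.d l) with hK
  have hK0 : 0 < K := Nat.lcm_pos (Z.d_pos i) (Z.d_pos l)
  have hKC : (K : ℂ) ≠ 0 := by exact_mod_cast hK0.ne'
  have hgK : (Nat.gcd (Z.d i) (Z.d l) : ℂ) * K = (Z.d i : ℂ) * Z.d l := by
    exact_mod_cast Nat.gcd_mul_lcm (Z.d i) (Z.d l)
  have hbez : (Nat.gcd (Z.d i) (Z.d l) : ℂ) =
      (Z.d i : ℂ) * ((Z.d i).gcdA (Z.d l) : ℂ) + (Z.d l : ℂ) * ((Z.d i).gcdB (Z.d l) : ℂ) := by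
    exact_mod_cast Nat.gcd_eq_gcd_ab (Z.d i) (Z.d l)
  have hint : ∀ k : ℤ, IsIntegral ℤ (k : ℂ) := fun k => isIntegral_algebraMap (R := ℤ) (x := k)
  have hγK : IsIntegral ℤ (γ / K) := by
    have h1 : γ / K = ((Z.d i).gcdA (Z.d l) : ℂ) * (γ / Z.d l) +
        ((Z.d i).gcdB (Z.d l) : ℂ) * (γ / Z.d i) := by
      rw [div_eq_iff hKC]
      have h2 : ((Z.d i).gcdA (Z.d l) : ℂ) * (γ / Z.d l) +
        ((Z.d i).gcdB (Z.d l) : ℂ) * (γ / Z.d i) =
        γ * (Nat.gcd (Z.d i) (Z.d l) : ℂ) / ((Z.d i : ℂ) * Z.d l) := by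
        rw [hbez]
        field_simp
      rw [h2, ← hgK]
      have hg0 : (Nat.gcd (Z.d i) (Z.d l) : ℂ) ≠ 0 := by
        have := Nat.gcd_pos_of_pos_left (Z.d l) (Z.d_pos i)
        exact_mod_cast this.ne'
      field_simp
    rw [h1]
    exact ((hint _).mul hl).add ((hint _).mul hi)
  have hcopK : ∀ t ∈ T, Nat.Coprime t K := by
    intro t ht
    rw [Nat.Prime.coprime_iff_not_dvd (hT t ht)]
    intro hdvd
    have h1 : t ∣ Z.d i * Z.d l := hdvd.trans (Nat.lcm_dvd_mul _ _)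
    rcases (Nat.Prime.dvd_mul (hT t ht)).1 h1 with h2 | h2
    · exact (hd t ht).1 h2
    · exact (hd t ht).2 h2
  have hγt : ∀ t ∈ T, IsIntegral ℤ (γ / K / t) := by
    intro t ht
    obtain ⟨β, hβ1, hβ2⟩ := hβ t ht
    have ht0 : (t : ℂ) ≠ 0 := by exact_mod_cast (hT t ht).ne_zero
    refine int_of_coprime (hcopK t ht) _ ?_ ?_
    · have : (t : ℂ) * (γ / K / t) = γ / K := by field_simp
      rw [this]
      exact hγK
    · have : (K : ℂ) * (γ / K / t) = β := by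
        rw [hβ2]
        field_simp
      rw [this]
      exact hβ1
  have hα := int_div_prod T hT (γ / K) hγK hγt
  set M : ℕ := ∏ t ∈ T, t with hM
  have hM0 : 0 < M := Finset.prod_pos fun t ht => (hT t ht).pos
  have hMR : (0 : ℝ) < M := by exact_mod_cast hM0
  have hKR : (0 : ℝ) < K := by exact_mod_cast hK0
  have hzero : γ / K / M = 0 := by
    apply hKRO _ hα
    intro σ
    rw [map_div₀, map_div₀, map_natCast, map_natCast, norm_div, norm_div, Complex.norm_natCast,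
      Complex.norm_natCast]
    have h1 : ‖σ γ‖ ≤ 2 * ((Z.d i : ℝ) * Z.d l) := by
      rw [hγ, map_sub, hG.Sf_chi i l, map_mul, map_mul, map_natCast, map_natCast]
      have h2 : ‖(Z.d i : ℂ) * σ (Cchi Z i l)‖ ≤ (Z.d i : ℝ) * Z.d l := by
        rw [norm_mul, Complex.norm_natCast]
        exact mul_le_mul_of_nonneg_left (hG.bound σ i l) (Nat.cast_nonneg _)
      have h3 : ‖(Z.d i : ℂ) * (Z.d l : ℂ)‖ = (Z.d i : ℝ) * Z.d l := by
        rw [norm_mul, Complex.norm_natCast, Complex.norm_natCast]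
      calc ‖(Z.d i : ℂ) * σ (Cchi Z i l) - (Z.d i : ℂ) * (Z.d l : ℂ)‖
          ≤ ‖(Z.d i : ℂ) * σ (Cchi Z i l)‖ + ‖(Z.d i : ℂ) * (Z.d l : ℂ)‖ := norm_sub_le _ _
        _ ≤ (Z.d i : ℝ) * Z.d l + (Z.d i : ℝ) * Z.d l := by rw [h3]; linarith
        _ = 2 * ((Z.d i : ℝ) * Z.d l) := by ring
    have h2 : ((Z.d i : ℝ) * Z.d l) = (Nat.gcd (Z.d i) (Z.d l) : ℝ) * K := by
      exact_mod_cast (Nat.gcd_mul_lcm (Z.d i) (Z.d l)).symm
    have h3 : (2 * (Nat.gcd (Z.d i) (Z.d l) : ℝ)) < M := by exact_mod_cast h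
    rw [div_div, div_lt_one (by positivity)]
    calc ‖σ γ‖ ≤ 2 * ((Z.d i : ℝ) * Z.d l) := h1
      _ = (2 * (Nat.gcd (Z.d i) (Z.d l) : ℝ)) * K := by rw [h2]; ring
      _ < M * K := by nlinarith
      _ = K * M := by ring
  have hMC : (M : ℂ) ≠ 0 := by exact_mod_cast hM0.ne'
  have hγ0 : γ = 0 := by
    rcases div_eq_zero_iff.1 hzero with h1 | h1
    · rcases div_eq_zero_iff.1 h1 with h2 | h2
      · exact h2
      · exact absurd h2 hKC
    · exact absurd h1 hMC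
  have := sub_eq_zero.1 (hγ ▸ hγ0)
  exact this

end Pool.Agent.Helper52.SQ
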