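import Pool.Agent.Helper79.AL.Defs

/-!
# A single class (MP_2b6189_al): all dimensions in the principal block are less than `p / 2`

Then some `k` has `y k = - g d k` (and OC MODULE TAN gives a Tannakian subcategory).
-/

set_option autoImplicit false

namespace Pool.Agent.Helper52.SQ

open Matrix ComplexConjugate Pool.Agent.Helper94.YG
open Pool.Agent.Helper94.YF hiding StORB
open Pool.Agent.Helper89.OS Pool.Agent.Helper89.OC Pool.Agent.Helper79.AL

theorem SGL {I : Type} [Fintype I] [DecidableEq I] (Z : CentreData I) {p : ℕ} [NeZero p]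
    (b : ZMod Z.L) (X : PD I p 1) (Q : ℂ → Prop) (N : ℕ) (a w : I) (e : ℤ) (A : ℕ)
    (hG : Gh Z b X Q N a w e A) (R : ℕ) (hR : 2 * R < p) (hd : ∀ k ∈ Ks X, X.d k ≤ R) :
    ∃ k ∈ Ks X, X.y k = -(gX X * (X.d k : ℤ)) := by
  classical
  have hB := hG.gam.blk
  have hM := Helper39.OS.hMZZ I p X
  have hg2 : 2 ≤ gX X := hM.2.2.2.2.1
  have hg0 : 0 < gX X := by linarith
  have hN3 : (3 : ℤ) ≤ N := by exact_mod_cast hG.gam.N_ge
  have hpN := hG.gam.pN
  -- the orbit of `w`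
  have hOrbm : ∀ j, j ∈ Orb X w ↔ ∃ c, X.pi c w = j := by
    intro j
    unfold Orb
    simp
  have hOrb : ∀ j ∈ Orb X w, X.y j = X.y w ∧ X.d j = X.d w := by
    intro j hj
    obtain ⟨c, rfl⟩ := (hOrbm j).1 hj
    exact ⟨X.pi_y c w, X.pi_d c w⟩
  -- a single point
  have hex : ∃ k ∈ Kp X a, k ∉ Orb X w := by
    by_contra hcon
    push Not at hcon
    have hsub : ∀ j ∈ Orb X w, j ∈ Kp X a := by
      intro j hj
      obtain ⟨c, rfl⟩ := (hOrbm j).1 hj
      have h1 := hG.wK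
      simp only [Kp, Ks, Finset.mem_filter, Finset.mem_univ, true_and, Orb] at h1 ⊢
      obtain ⟨⟨h2, h3, h4⟩, h5⟩ := h1
      refine ⟨⟨by rwa [X.pi_y], ?_, ?_⟩, ?_⟩
      · rw [X.pi_t, h3, one_pow]
      · intro h
        apply h4
        have := congrArg (X.pi c⁻¹) h
        rwa [← X.pi_mul, inv_mul_cancel, X.pi_one, X.pi_o] at this
      · rintro ⟨c', hc'⟩
        apply h5
        refine ⟨c⁻¹ * c', ?_⟩
        rw [X.pi_mul, hc', ← X.pi_mul, inv_mul_cancel, X.pi_one]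
    have heq : Kp X a = Orb X w := by
      ext j
      exact ⟨hcon j, hsub j⟩
    have h1 := hG.gam.sq
    have h2 := hG.gam.dm
    rw [heq] at h1 h2
    rw [Finset.sum_congr rfl (fun k hk => by rw [(hOrb k hk).1]), Finset.sum_const,
      nsmul_eq_mul, hG.wO] at h1
    rw [Finset.sum_congr rfl (fun k hk => by rw [(hOrb k hk).1, (hOrb k hk).2]),
      Finset.sum_const, nsmul_eq_mul, hG.wO] at h2
    have h3 : X.y w ^ 2 = (p : ℤ) - gX X := mul_left_cancel₀ hg0.ne' h1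
    have h4 : X.y w * (X.d w : ℤ) = 1 := by
      apply mul_left_cancel₀ hg0.ne'
      rw [h2, mul_one]
    have h5 : (X.d w : ℤ) = 1 := by
      rcases Int.isUnit_iff.1 (IsUnit.of_mul_eq_one_right _ h4) with h | h
      · exact h
      · have : (0 : ℤ) ≤ X.d w := Int.natCast_nonneg _
        linarith
    rw [h5, mul_one] at h4
    rw [h4] at h3
    -- `g = p - 1 = N g`
    have h6 : (N : ℤ) * gX X = gX X := by linarith
    nlinarith
  obtain ⟨k, hk, hkw⟩ := hex
  have hkK : k ∈ Ks X := by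
    simp only [Kp, Finset.mem_filter] at hk
    exact hk.1
  have hk1 := hG.sng k hk hkw
  obtain ⟨hky, hkt, hko⟩ : X.y k ≠ 0 ∧ X.t k = 1 ∧ k ≠ X.o := by
    simpa [Ks] using hkK
  have hT := (Helper45.OS.hTSU Helper47.OS.hSTL Helper8.OS.hHEC Helper39.OS.hMZZ hRAT' I p X Q hB k
    hky hkt hko).2
  rw [hk1] at hT
  obtain ⟨v, hv⟩ : gX X ∣ X.y k := by
    have : gX X ∣ ((1 : ℕ) : ℤ) * X.y k := hT
    simpa using this
  -- size of `v`
  have hsq : gX X * (v ^ 2 * gX X) ≤ gX X * ((p : ℤ) - gX X) := by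
    rw [← hG.gam.sq]
    have h1 : X.y k ^ 2 ≤ ∑ k ∈ Kp X a, X.y k ^ 2 :=
      Finset.single_le_sum (fun i _ => sq_nonneg (X.y i)) hk
    calc gX X * (v ^ 2 * gX X) = X.y k ^ 2 := by rw [hv]; ring
      _ ≤ _ := h1
  have hsq2 : v ^ 2 * gX X ≤ (p : ℤ) - gX X := le_of_mul_le_mul_left hsq hg0
  have hsq3 : 2 * v ^ 2 ≤ (p : ℤ) - 2 := by nlinarith [sq_nonneg v]
  -- the congruence
  have hD := (Helper79.OS.hDRE Helper47.OS.hSTL Helper8.OS.hHEC Helper39.OS.hMZZ I p X Q hB).1 k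
    hky hkt hko
  have hD2 : (X.d k : ℤ) + v = p * (X.z X.o * v + X.z k) := by
    have h1 : gX X * ((X.d k : ℤ) + v) = gX X * (p * (X.z X.o * v + X.z k)) := by
      have h2 : gX X * (X.d k : ℤ) = (p * X.z X.o - 1) * X.y k + gX X * (p * X.z k) := hD
      rw [mul_add, h2, hv]
      ring
    exact mul_left_cancel₀ hg0.ne' h1
  have hdR : (X.d k : ℤ) ≤ R := by exact_mod_cast hd k hkK
  have hRp : 2 * (R : ℤ) < p := by exact_mod_cast hR
  have hd0 : (0 : ℤ) < X.d k := by exact_mod_cast X.d_pos k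
  have hp0 : (0 : ℤ) < p := by exact_mod_cast X.prime.pos
  have hvb : |2 * v| < p + 1 := by
    apply abs_lt_of_sq_lt_sq (by nlinarith) (by linarith)
  have hvb' := abs_lt.1 hvb
  have h0 : (X.d k : ℤ) + v = 0 := by
    apply Int.eq_zero_of_abs_lt_dvd (Dvd.intro _ hD2.symm)
    rw [abs_lt]
    constructor
    · linarith [hvb'.1]
    · -- `2 (d + v) ≤ 2R + 2v < 2p`
      have h1 : 2 * ((X.d k : ℤ) + v) < 2 * p := by linarith [hvb'.2]
      linarith
  refine ⟨k, hkK, ?_⟩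
  rw [hv]
  have : v = -(X.d k : ℤ) := by linarith
  rw [this]
  ring

end Pool.Agent.Helper52.SQ
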